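import Pool.Agent.Helper32.PD.Defs
import Pool.Agent.Helper32.Piv.Pivot3
import Pool.Agent.Helper58.PD.Bip

/-!
# Algebra of the near-clique case: eliminating paths in the complement
-/

set_option autoImplicit false
set_option linter.unusedSectionVars false

namespace Pool.Agent.Helper32.PD

open Finset
open scoped Classical
open Pool.Agent.Helper32.Piv

variable {V : Type}

/-- inverse of the identity plus the path matrix on `k` vertices, `k % 3 ≠ 2` -/
def n0 (k i j : ℕ) : ZMod 2 :=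
  if (min i j) % 3 ≠ 2 ∧ (k - 1 - max i j) % 3 ≠ 2 then 1 else 0

theorem n0_comm (k i j : ℕ) : n0 k i j = n0 k j i := by
  unfold n0
  rw [min_comm, max_comm]

/-- the identity plus the path matrix -/
def d0 (i j : ℕ) : ZMod 2 := if i = j ∨ j = i + 1 ∨ i = j + 1 then 1 else 0

theorem d0_mul (k i j : ℕ) (hk : k % 3 ≠ 2) (hi : i < k) (hj : j < k) :
    ∑ t ∈ range k, d0 i t * n0 k t j = if i = j then 1 else 0 := by
  have h1 : ∑ t ∈ range k, d0 i t * n0 k t j =
      (if 0 < i then n0 k (i - 1) j else 0) + n0 k i j +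
        (if i + 1 < k then n0 k (i + 1) j else 0) := by
    have e1 : ∀ t ∈ range k, d0 i t * n0 k t j =
        (if i - 1 = t then (if 0 < i then n0 k t j else 0) else 0) +
          (if i = t then n0 k t j else 0) + (if i + 1 = t then n0 k t j else 0) := by
      intro t _
      unfold d0
      by_cases h1 : t = i + 1
      · subst h1
        rw [if_pos (by omega), if_neg (by omega), if_neg (by omega), if_pos rfl]
        ring
      · by_cases h2 : i = t
        · subst h2
          rw [if_pos (by omega), if_pos (rfl : i = i), if_neg (show ¬ i + 1 = i by omega)]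
          by_cases h3 : i - 1 = i
          · rw [if_pos h3, if_neg (by omega)]
            ring
          · rw [if_neg h3]
            ring
        · by_cases h3 : i = t + 1
          · subst h3
            rw [if_pos (by omega), if_pos (by omega), if_pos (by omega), if_neg (by omega),
              if_neg (by omega)]
            ring
          · rw [if_neg (by omega), if_neg (show ¬ i = t by omega),
              if_neg (show ¬ i + 1 = t by omega)]
            by_cases h4 : i - 1 = t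
            · rw [if_pos h4, if_neg (by omega)]
              ring
            · rw [if_neg h4]
              ring
    have hm1 : i - 1 ∈ range k := by rw [mem_range]; omega
    have hm2 : i ∈ range k := by rw [mem_range]; omega
    rw [Finset.sum_congr rfl e1, Finset.sum_add_distrib, Finset.sum_add_distrib,
      Finset.sum_ite_eq, Finset.sum_ite_eq, Finset.sum_ite_eq, if_pos hm1, if_pos hm2]
    simp only [mem_range]
  rw [h1]
  unfold n0
  by_cases hi0 : 0 < i
  · rw [if_pos hi0]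
    by_cases hi1 : i + 1 < k
    · rw [if_pos hi1]
      by_cases hij : i = j
      · rw [if_pos hij]
        split_ifs <;> first | (exfalso; omega) | decide
      · rw [if_neg hij]
        split_ifs <;> first | (exfalso; omega) | decide
    · rw [if_neg hi1]
      by_cases hij : i = j
      · rw [if_pos hij]
        split_ifs <;> first | (exfalso; omega) | decide
      · rw [if_neg hij]
        split_ifs <;> first | (exfalso; omega) | decide
  · rw [if_neg hi0]
    by_cases hi1 : i + 1 < k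
    · rw [if_pos hi1]
      by_cases hij : i = j
      · rw [if_pos hij]
        split_ifs <;> first | (exfalso; omega) | decide
      · rw [if_neg hij]
        split_ifs <;> first | (exfalso; omega) | decide
    · rw [if_neg hi1]
      by_cases hij : i = j
      · rw [if_pos hij]
        split_ifs <;> first | (exfalso; omega) | decide
      · exfalso
        omega

/-- column sums -/
theorem n0_sum (k : ℕ) : (k % 3 = 0 → ∑ j ∈ range k, n0 k 0 j = 0) ∧
    (k % 3 = 1 → ∑ j ∈ range k, n0 k 0 j = 1) := by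
  have h1 : ∀ k : ℕ, ∑ j ∈ range k, n0 k 0 j =
      ∑ j ∈ range k, if j % 3 ≠ 2 then (1 : ZMod 2) else 0 := by
    intro k
    rw [← Finset.sum_range_reflect]
    refine Finset.sum_congr rfl fun j hj => ?_
    rw [mem_range] at hj
    unfold n0
    congr 1
    apply propext
    constructor
    · rintro ⟨_, h⟩
      have : k - 1 - max 0 (k - 1 - j) = j := by omega
      rw [this] at h
      exact h
    · intro h
      have : k - 1 - max 0 (k - 1 - j) = j := by omega
      rw [this]
      exact ⟨by simp, h⟩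
  have h2 : ∀ m : ℕ, ∑ j ∈ range (3 * m), (if j % 3 ≠ 2 then (1 : ZMod 2) else 0) = 0 := by
    intro m
    induction m with
    | zero => simp
    | succ m ih =>
      rw [show 3 * (m + 1) = 3 * m + 1 + 1 + 1 by ring, Finset.sum_range_succ,
        Finset.sum_range_succ, Finset.sum_range_succ, ih, if_pos (by omega), if_pos (by omega),
        if_neg (by omega)]
      decide
  refine ⟨fun h => ?_, fun h => ?_⟩
  · rw [h1, show k = 3 * (k / 3) by omega, h2]
  · rw [h1, show k = 3 * (k / 3) + 1 by omega, Finset.sum_range_succ, h2, if_pos (by omega)]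
    decide

/-- Elimination in the complement. -/
theorem nearclique_elim {W' : Type*} (F G : SimpleGraph V) (H : SimpleGraph W') (W S : Finset V)
    (hGF : ∀ x ∈ W, ∀ y ∈ W, x ≠ y → (G.Adj x y ↔ ¬ F.Adj x y)) (hSW : S ⊆ W)
    (N : V → V → ZMod 2) (hsymm : ∀ s ∈ S, ∀ t ∈ S, N s t = N t s)
    (hinv : ∀ s ∈ S, ∀ s' ∈ S,
      ∑ t ∈ S, ((if s = t then 1 else 0) + adjM F s t) * N t s' = if s = s' then 1 else 0)
    (htot : ∑ s ∈ S, ∑ t ∈ S, N s t = 0)
    (f : W' → V) (hf : Function.Injective f) (hfW : ∀ w, f w ∈ W) (hfS : ∀ w, f w ∉ S)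
    (hadj : ∀ a b : W', a ≠ b → adjM H a b =
      (1 + ∑ s ∈ S, adjM F (f a) s * ∑ t ∈ S, N s t) *
        (1 + ∑ s ∈ S, adjM F (f b) s * ∑ t ∈ S, N s t) + adjM F (f a) (f b) +
        ∑ s ∈ S, ∑ s' ∈ S, adjM F (f a) s * N s s' * adjM F s' (f b)) : HasPivotMinor G H := by
  have h2 : ∀ a : ZMod 2, a + a = 0 := by decide
  have hG : ∀ x ∈ W, ∀ y ∈ W, adjM G x y = 1 + ((if x = y then 1 else 0) + adjM F x y) := by
    intro x hx y hy
    by_cases hxy : x = y
    · subst hxy
      rw [adjM_self, adjM_self, if_pos rfl]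
      decide
    · rw [if_neg hxy]
      unfold adjM
      rw [hGF x hx y hy hxy]
      by_cases h : F.Adj x y
      · rw [if_neg (by simp [h]), if_pos h]
        decide
      · rw [if_pos h, if_neg h]
        decide
  obtain ⟨w, hw⟩ : ∃ w : V → ZMod 2, ∀ s, w s = ∑ t ∈ S, N s t := ⟨_, fun _ => rfl⟩
  have htot' : ∑ s ∈ S, w s = 0 := by
    rw [← htot]
    exact Finset.sum_congr rfl fun s _ => hw s
  have hw1 : ∀ s' ∈ S, ∑ t ∈ S, N t s' = w s' := by
    intro s' hs'
    rw [hw]
    exact Finset.sum_congr rfl fun t ht => hsymm t ht s' hs'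
  have hw2 : ∀ s ∈ S, ∑ t ∈ S, ((if s = t then 1 else 0) + adjM F s t) * w t = 1 := by
    intro s hs
    simp only [hw, Finset.mul_sum]
    rw [Finset.sum_comm, Finset.sum_congr rfl fun u hu => hinv s hs u hu, Finset.sum_ite_eq,
      if_pos hs]
  refine hasPivotMinor_of_elim G H S (fun s t => N s t + w s * w t)
    (fun s hs t ht => by
      show N s t + w s * w t = N t s + w t * w s
      rw [hsymm s hs t ht, mul_comm (w s)]) ?_ f hf hfS ?_
  · intro s hs s' hs'
    have e1 : ∀ t ∈ S, adjM G s t * (N t s' + w t * w s') =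
        (N t s' + w t * w s') + (((if s = t then 1 else 0) + adjM F s t) * N t s' +
          (((if s = t then 1 else 0) + adjM F s t) * w t) * w s') := by
      intro t ht
      rw [hG s (hSW hs) t (hSW ht)]
      ring
    show ∑ t ∈ S, adjM G s t * (N t s' + w t * w s') = _
    rw [Finset.sum_congr rfl e1, Finset.sum_add_distrib, Finset.sum_add_distrib,
      Finset.sum_add_distrib, ← Finset.sum_mul, ← Finset.sum_mul, hinv s hs s' hs', hw2 s hs,
      hw1 s' hs', htot']
    calc w s' + 0 * w s' + ((if s = s' then 1 else 0) + 1 * w s')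
        = (w s' + w s') + (if s = s' then 1 else 0) := by ring
      _ = _ := by rw [h2, zero_add]
  · intro a b hab
    have hfab : f a ≠ f b := fun h => hab (hf h)
    rw [hadj a b hab, hG _ (hfW a) _ (hfW b), if_neg hfab]
    have e1 : ∀ s ∈ S, ∀ s' ∈ S,
        adjM G (f a) s * (N s s' + w s * w s') * adjM G s' (f b) =
          N s s' + adjM F (f a) s * N s s' + N s s' * adjM F s' (f b) +
          adjM F (f a) s * N s s' * adjM F s' (f b) +
          (w s + adjM F (f a) s * w s) * (w s' + adjM F (f b) s' * w s') := by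
      intro s hs s' hs'
      rw [hG _ (hfW a) s (hSW hs), hG s' (hSW hs') _ (hfW b),
        if_neg (fun h : f a = s => hfS a (h ▸ hs)),
        if_neg (fun h : s' = f b => hfS b (h ▸ hs')),
        adjM_comm F s' (f b)]
      ring
    have e3 : ∑ s ∈ S, ∑ s' ∈ S, adjM F (f a) s * N s s' = ∑ s ∈ S, adjM F (f a) s * w s := by
      refine Finset.sum_congr rfl fun s _ => ?_
      rw [← Finset.mul_sum, hw]
    have e4 : ∑ s ∈ S, ∑ s' ∈ S, N s s' * adjM F s' (f b) = ∑ s ∈ S, adjM F (f b) s * w s := by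
      rw [Finset.sum_comm]
      refine Finset.sum_congr rfl fun s' hs' => ?_
      rw [← Finset.sum_mul, hw1 s' hs', adjM_comm F s' (f b), mul_comm]
    have e5 : ∑ s ∈ S, ∑ s' ∈ S, (w s + adjM F (f a) s * w s) * (w s' + adjM F (f b) s' * w s') =
        (∑ s ∈ S, adjM F (f a) s * w s) * ∑ s ∈ S, adjM F (f b) s * w s := by
      have e6 : ∀ g : V → ZMod 2, ∑ s ∈ S, (w s + g s) = ∑ s ∈ S, g s := by
        intro g
        rw [Finset.sum_add_distrib, htot', zero_add]
      rw [← Finset.sum_mul_sum, e6 (fun s => adjM F (f a) s * w s),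
        e6 (fun s => adjM F (f b) s * w s)]
    have e8 : ∑ s ∈ S, ∑ s' ∈ S, adjM G (f a) s * (N s s' + w s * w s') * adjM G s' (f b) =
        ∑ s ∈ S, ∑ s' ∈ S, N s s' + ∑ s ∈ S, ∑ s' ∈ S, adjM F (f a) s * N s s' +
        ∑ s ∈ S, ∑ s' ∈ S, N s s' * adjM F s' (f b) +
        ∑ s ∈ S, ∑ s' ∈ S, adjM F (f a) s * N s s' * adjM F s' (f b) +
        ∑ s ∈ S, ∑ s' ∈ S,
          (w s + adjM F (f a) s * w s) * (w s' + adjM F (f b) s' * w s') := by
      rw [Finset.sum_congr rfl fun s hs => Finset.sum_congr rfl fun s' hs' => e1 s hs s' hs']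
      simp only [Finset.sum_add_distrib]
    show _ = _ + ∑ s ∈ S, ∑ s' ∈ S, adjM G (f a) s * (N s s' + w s * w s') * adjM G s' (f b)
    rw [e8, htot, e3, e4, e5]
    simp only [← hw]
    ring

/-- Elimination of pairwise anticomplete induced paths in the complement. -/
theorem nearclique_blocks {η W' : Type} [Fintype η] (F G : SimpleGraph V) (H : SimpleGraph W')
    (W : Finset V) (hGF : ∀ x ∈ W, ∀ y ∈ W, x ≠ y → (G.Adj x y ↔ ¬ F.Adj x y))
    (k : η → ℕ) (P : η → ℕ → V) (hk : ∀ e, k e % 3 ≠ 2) (hPW : ∀ e, ∀ i < k e, P e i ∈ W)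
    (hP : ∀ e, ∀ i < k e, ∀ j < k e, (P e i = P e j ↔ i = j) ∧
      (F.Adj (P e i) (P e j) ↔ (j = i + 1 ∨ i = j + 1)))
    (hanti : ∀ e e', e ≠ e' → ∀ i < k e, ∀ j < k e', P e i ≠ P e' j ∧
      ¬ F.Adj (P e i) (P e' j))
    (htot : ∑ e, ∑ i ∈ range (k e), ∑ j ∈ range (k e), n0 (k e) i j = 0)
    (f : W' → V) (hf : Function.Injective f) (hfW : ∀ w, f w ∈ W)
    (hfP : ∀ w e, ∀ i < k e, f w ≠ P e i)
    (hadj : ∀ a b : W', a ≠ b → adjM H a b =
      (1 + ∑ e, ∑ i ∈ range (k e), adjM F (f a) (P e i) * ∑ j ∈ range (k e), n0 (k e) i j) *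
        (1 + ∑ e, ∑ i ∈ range (k e), adjM F (f b) (P e i) *
          ∑ j ∈ range (k e), n0 (k e) i j) + adjM F (f a) (f b) +
        ∑ e, ∑ i ∈ range (k e), ∑ j ∈ range (k e),
          adjM F (f a) (P e i) * n0 (k e) i j * adjM F (P e j) (f b)) : HasPivotMinor G H := by
  obtain ⟨T, hT⟩ : ∃ T : Finset (Sigma fun _ : η => ℕ), T = univ.sigma fun e => range (k e) :=
    ⟨_, rfl⟩
  obtain ⟨φ, hφ⟩ : ∃ φ : (Sigma fun _ : η => ℕ) → V, ∀ x, φ x = P x.1 x.2 := ⟨_, fun _ => rfl⟩
  obtain ⟨n1, hn1⟩ : ∃ n1 : (Sigma fun _ : η => ℕ) → (Sigma fun _ : η => ℕ) → ZMod 2,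
      ∀ x y, n1 x y = if x.1 = y.1 then n0 (k x.1) x.2 y.2 else 0 := ⟨_, fun _ _ => rfl⟩
  have hmT : ∀ x, x ∈ T ↔ x.2 < k x.1 := by
    intro x
    rw [hT, mem_sigma, mem_range]
    simp
  have hinj : ∀ x ∈ T, ∀ y ∈ T, φ x = φ y → x = y := by
    rintro ⟨e, i⟩ hx ⟨e', j⟩ hy h
    rw [hmT] at hx hy
    rw [hφ, hφ] at h
    by_cases hee : e = e'
    · subst hee
      rw [((hP e i hx j hy).1.1 h)]
    · exact absurd h (hanti e e' hee i hx j hy).1
  have hsumT : ∀ g : (Sigma fun _ : η => ℕ) → ZMod 2,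
      ∑ x ∈ T, g x = ∑ e, ∑ i ∈ range (k e), g ⟨e, i⟩ := by
    intro g
    rw [hT, Finset.sum_sigma]
  have hrow : ∀ x ∈ T, ∀ g : (Sigma fun _ : η => ℕ) → ZMod 2,
      ∑ y ∈ T, n1 x y * g y = ∑ j ∈ range (k x.1), n0 (k x.1) x.2 j * g ⟨x.1, j⟩ := by
    intro x hx g
    rw [hsumT, Finset.sum_eq_single x.1]
    · refine Finset.sum_congr rfl fun j _ => ?_
      rw [hn1, if_pos rfl]
    · intro e _ he
      apply Finset.sum_eq_zero
      intro j _
      rw [hn1, if_neg (fun h => he h.symm), zero_mul]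
    · intro h
      exact absurd (mem_univ _) h
  have hrow1 : ∀ x ∈ T, ∑ y ∈ T, n1 x y = ∑ j ∈ range (k x.1), n0 (k x.1) x.2 j := by
    intro x hx
    have := hrow x hx (fun _ => 1)
    simpa using this
  have hn1c : ∀ x y, n1 x y = n1 y x := by
    intro x y
    rw [hn1, hn1]
    by_cases h : x.1 = y.1
    · rw [if_pos h, if_pos h.symm, n0_comm, h]
    · rw [if_neg h, if_neg (fun h' => h h'.symm)]
  obtain ⟨N, hN⟩ : ∃ N : V → V → ZMod 2, ∀ s t, N s t = ∑ x ∈ T, ∑ y ∈ T,
      if φ x = s ∧ φ y = t then n1 x y else 0 := ⟨_, fun _ _ => rfl⟩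
  have hNeq : ∀ x ∈ T, ∀ y ∈ T, N (φ x) (φ y) = n1 x y := by
    intro x hx y hy
    rw [hN, Finset.sum_eq_single x, Finset.sum_eq_single y]
    · rw [if_pos ⟨rfl, rfl⟩]
    · intro y' hy' hne
      rw [if_neg]
      rintro ⟨_, h⟩
      exact hne (hinj y' hy' y hy h)
    · intro h
      exact absurd hy h
    · intro x' hx' hne
      apply Finset.sum_eq_zero
      intro y' _
      rw [if_neg]
      rintro ⟨h, _⟩
      exact hne (hinj x' hx' x hx h)
    · intro h
      exact absurd hx h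
  have hsumS : ∀ g : V → ZMod 2, ∑ s ∈ T.image φ, g s = ∑ x ∈ T, g (φ x) := by
    intro g
    rw [Finset.sum_image]
    intro x hx y hy h
    exact hinj x hx y hy h
  have hsumN : ∀ x ∈ T, ∑ t ∈ T.image φ, N (φ x) t = ∑ j ∈ range (k x.1), n0 (k x.1) x.2 j := by
    intro x hx
    rw [hsumS, ← hrow1 x hx]
    exact Finset.sum_congr rfl fun y hy => hNeq x hx y hy
  have hsumF : ∀ v, ∑ s ∈ T.image φ, adjM F v s * ∑ t ∈ T.image φ, N s t =
      ∑ e, ∑ i ∈ range (k e), adjM F v (P e i) * ∑ j ∈ range (k e), n0 (k e) i j := by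
    intro v
    rw [hsumS, ← hsumT (fun x => adjM F v (P x.1 x.2) *
      ∑ j ∈ range (k x.1), n0 (k x.1) x.2 j)]
    refine Finset.sum_congr rfl fun x hx => ?_
    rw [hsumN x hx, hφ]
  refine nearclique_elim F G H W (T.image φ) hGF ?_ N ?_ ?_ ?_ f hf hfW ?_ ?_
  · intro s hs
    rw [mem_image] at hs
    obtain ⟨x, hx, rfl⟩ := hs
    rw [hφ]
    exact hPW x.1 x.2 ((hmT x).1 hx)
  · intro s hs t ht
    rw [mem_image] at hs ht
    obtain ⟨x, hx, rfl⟩ := hs
    obtain ⟨y, hy, rfl⟩ := ht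
    rw [hNeq x hx y hy, hNeq y hy x hx, hn1c]
  · intro s hs t ht
    rw [mem_image] at hs ht
    obtain ⟨x, hx, rfl⟩ := hs
    obtain ⟨y, hy, rfl⟩ := ht
    rw [hsumS]
    have e1 : ∀ z ∈ T, ((if φ x = φ z then 1 else 0) + adjM F (φ x) (φ z)) * N (φ z) (φ y) =
        n1 y z * (if x.1 = z.1 then d0 x.2 z.2 else 0) := by
      intro z hz
      rw [hNeq z hz y hy, mul_comm, hn1c]
      congr 1
      by_cases h : x.1 = z.1
      · rw [if_pos h]
        obtain ⟨e, i⟩ := x
        obtain ⟨e', j⟩ := z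
        simp only at h
        subst h
        rw [hmT] at hx hz
        rw [hφ, hφ]
        have h1 := hP e i hx j hz
        simp only
        unfold adjM d0
        simp only [h1.1, h1.2]
        by_cases h3 : i = j
        · subst h3
          simp
        · simp only [if_neg h3, zero_add]
          congr 1
          apply propext
          tauto
      · rw [if_neg h, hφ, hφ]
        have h1 := hanti x.1 z.1 h x.2 ((hmT x).1 hx) z.2 ((hmT z).1 hz)
        rw [if_neg h1.1, adjM_eq_zero.2 h1.2, add_zero]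
    rw [Finset.sum_congr rfl e1, hrow y hy]
    obtain ⟨e, i⟩ := x
    obtain ⟨e', j⟩ := y
    simp only
    by_cases h : e = e'
    · subst h
      have h1 := d0_mul (k e) i j (hk e) ((hmT _).1 hx) ((hmT _).1 hy)
      have h3 : (φ ⟨e, i⟩ = φ ⟨e, j⟩) ↔ i = j := by
        rw [hφ, hφ]
        exact (hP e i ((hmT _).1 hx) j ((hmT _).1 hy)).1
      simp only [h3, if_true, ← h1]
      refine Finset.sum_congr rfl fun t _ => ?_
      rw [n0_comm, mul_comm]
    · rw [if_neg, Finset.sum_eq_zero]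
      · intro t _
        rw [if_neg h, mul_zero]
      · rw [hφ, hφ]
        exact (hanti e e' h i ((hmT _).1 hx) j ((hmT _).1 hy)).1
  · rw [hsumS, ← htot, ← hsumT (fun x => ∑ j ∈ range (k x.1), n0 (k x.1) x.2 j)]
    exact Finset.sum_congr rfl fun x hx => hsumN x hx
  · intro w hw
    rw [mem_image] at hw
    obtain ⟨x, hx, h⟩ := hw
    rw [hφ] at h
    exact hfP w x.1 x.2 ((hmT x).1 hx) h.symm
  · intro a b hab
    rw [hadj a b hab, hsumF, hsumF, hsumS]
    congr 1
    rw [← hsumT (fun x => ∑ j ∈ range (k x.1),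
      adjM F (f a) (P x.1 x.2) * n0 (k x.1) x.2 j * adjM F (P x.1 j) (f b))]
    refine Finset.sum_congr rfl fun x hx => ?_
    rw [hsumS]
    have e2 : ∀ y ∈ T, adjM F (f a) (φ x) * N (φ x) (φ y) * adjM F (φ y) (f b) =
        n1 x y * (adjM F (f a) (P x.1 x.2) * adjM F (P y.1 y.2) (f b)) := by
      intro y hy
      rw [hNeq x hx y hy, hφ, hφ]
      ring
    rw [Finset.sum_congr rfl e2, hrow x hx]
    refine Finset.sum_congr rfl fun j _ => ?_
    simp only
    ring

/-- the data of an induced path between two branch vertices -/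
theorem ipath_data {F : SimpleGraph V} {x y : V} {l : List V} (h : IPath F (x :: (l ++ [y])))
    (d : V) :
    (∀ i < l.length, ∀ j < l.length, (l.getD i d = l.getD j d ↔ i = j) ∧
      (F.Adj (l.getD i d) (l.getD j d) ↔ (j = i + 1 ∨ i = j + 1))) ∧
    (∀ i < l.length, x ≠ l.getD i d ∧ (F.Adj x (l.getD i d) ↔ i = 0)) ∧
    (∀ i < l.length, y ≠ l.getD i d ∧ (F.Adj y (l.getD i d) ↔ i + 1 = l.length)) ∧
    (l.length = 0 → F.Adj x y) := by
  obtain ⟨hnd, hadj⟩ := h
  have hlen : (x :: (l ++ [y])).length = l.length + 2 := by simp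
  have hin : ∀ i (hi : i < l.length), (x :: (l ++ [y]))[i + 1]'(by rw [hlen]; omega) =
      l.getD i d := by
    intro i hi
    rw [List.getElem_cons_succ, List.getElem_append_left hi, List.getD_eq_getElem l d hi]
  have h0 : (x :: (l ++ [y]))[0]'(by rw [hlen]; omega) = x := rfl
  have hl : (x :: (l ++ [y]))[l.length + 1]'(by rw [hlen]; omega) = y := by
    rw [List.getElem_cons_succ, List.getElem_append_right (le_refl _)]
    simp
  have hinj : ∀ i j (hi : i < l.length + 2) (hj : j < l.length + 2),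
      (x :: (l ++ [y]))[i]'(by rw [hlen]; exact hi) =
        (x :: (l ++ [y]))[j]'(by rw [hlen]; exact hj) ↔ i = j := by
    intro i j hi hj
    exact hnd.getElem_inj_iff
  refine ⟨fun i hi j hj => ⟨?_, ?_⟩, fun i hi => ⟨?_, ?_⟩, fun i hi => ⟨?_, ?_⟩, fun h => ?_⟩
  · rw [← hin i hi, ← hin j hj, hinj _ _ (by omega) (by omega)]
    omega
  · rw [← hin i hi, ← hin j hj, hadj]
    omega
  · intro h
    have h' : (x :: (l ++ [y]))[0]'(by rw [hlen]; omega) =
        (x :: (l ++ [y]))[i + 1]'(by rw [hlen]; omega) := by rw [h0, hin i hi, h]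
    rw [hinj _ _ (by omega) (by omega)] at h'
    omega
  · rw [← hin i hi]
    have := hadj 0 (i + 1) (by rw [hlen]; omega) (by rw [hlen]; omega)
    rw [h0] at this
    rw [this]
    omega
  · intro h
    have h' : (x :: (l ++ [y]))[l.length + 1]'(by rw [hlen]; omega) =
        (x :: (l ++ [y]))[i + 1]'(by rw [hlen]; omega) := by rw [hl, hin i hi, h]
    rw [hinj _ _ (by omega) (by omega)] at h'
    omega
  · rw [← hin i hi]
    have := hadj (l.length + 1) (i + 1) (by rw [hlen]; omega) (by rw [hlen]; omega)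
    rw [hl] at this
    rw [this]
    omega
  · have := hadj 0 (l.length + 1) (by rw [hlen]; omega) (by rw [hlen]; omega)
    rw [h0, hl] at this
    rw [this]
    omega

theorem n0_sum' (k : ℕ) : ∑ j ∈ range k, n0 k (k - 1) j = ∑ j ∈ range k, n0 k 0 j := by
  rw [← Finset.sum_range_reflect]
  refine Finset.sum_congr rfl fun j hj => ?_
  rw [mem_range] at hj
  unfold n0
  congr 1
  apply propext
  omega

theorem n0_corner (k : ℕ) : n0 k 0 (k - 1) = 1 := by
  unfold n0
  rw [if_pos]
  omega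

/-- The common form of the two algebraic statements. -/
theorem hasPivotMinor_three {ι₀ ι₁ ε : Type} [Fintype ι₀] [Fintype ι₁] [Fintype ε]
    (F G : SimpleGraph V) (a : ε → ι₀) (b : ε → ι₁) (g : ℕ) (hg : g = 0 ∨ g = 1) (c : ZMod 2)
    (hc : c = (g : ZMod 2)) (H : SimpleGraph (ι₀ ⊕ ι₁))
    (hH0 : ∀ i j, i ≠ j → adjM H (Sum.inl i) (Sum.inl j) =
      (1 + c * ∑ e, if a e = i then 1 else 0) * (1 + c * ∑ e, if a e = j then 1 else 0))
    (hH1 : ∀ i j, i ≠ j → adjM H (Sum.inr i) (Sum.inr j) =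
      (1 + c * ∑ e, if b e = i then 1 else 0) * (1 + c * ∑ e, if b e = j then 1 else 0))
    (hH01 : ∀ i j, adjM H (Sum.inl i) (Sum.inr j) =
      (1 + c * ∑ e, if a e = i then 1 else 0) * (1 + c * ∑ e, if b e = j then 1 else 0) +
        ∑ e, if a e = i ∧ b e = j then 1 else 0)
    (f₀ : ι₀ → V) (f₁ : ι₁ → V)
    (p : ε → List V) (W : Finset V) (z : V) (hGF : ∀ x ∈ W, ∀ y ∈ W, x ≠ y →
      (G.Adj x y ↔ ¬ F.Adj x y)) (hzW : z ∈ W) (h₀ : ∀ i, f₀ i ∈ W ∧ z ≠ f₀ i ∧ ¬ F.Adj z (f₀ i))
    (h₁ : ∀ i, f₁ i ∈ W ∧ z ≠ f₁ i ∧ ¬ F.Adj z (f₁ i))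
    (hp : ∀ e, ∀ v ∈ p e, v ∈ W ∧ z ≠ v ∧ ¬ F.Adj z v)
    (h : SubD F a b 3 g f₀ f₁ p) : HasPivotMinor G H := by
  obtain ⟨τ, hτ⟩ : ∃ τ : ZMod 2, τ = ∑ e, ∑ i ∈ range (p e).length,
    ∑ j ∈ range (p e).length, n0 (p e).length i j := ⟨_, rfl⟩
  obtain ⟨kn, hkn⟩ : ∃ kn : ℕ, kn = if τ = 0 then 0 else 1 := ⟨_, rfl⟩
  have hkn1 : kn ≤ 1 := by
    rw [hkn]
    split_ifs <;> omega
  have hmem : ∀ e, ∀ i < (p e).length, (p e).getD i z ∈ p e := by
    intro e i hi
    rw [List.getD_eq_getElem _ _ hi]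
    exact List.getElem_mem hi
  have hdata := fun e => ipath_data (h.path e) z
  have hpos : ∀ e, 0 < (p e).length := by
    intro e
    rcases Nat.eq_zero_or_pos (p e).length with h0 | h0
    · exact absurd ((hdata e).2.2.2 h0) (h.indep _ _)
    · exact h0
  have hcol : ∀ e, ∑ j ∈ range (p e).length, n0 (p e).length 0 j = c := by
    intro e
    have hl := h.len e
    rcases hg with h0 | h0
    · subst h0
      rw [(n0_sum _).1 hl, hc]
      simp
    · subst h0
      rw [(n0_sum _).2 hl, hc]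
      simp
  -- adjacency of the branch vertices
  have hF0 : ∀ i e, ∀ s < (p e).length,
      adjM F (f₀ i) ((p e).getD s z) = if a e = i ∧ s = 0 then 1 else 0 := by
    intro i e s hs
    unfold adjM
    congr 1
    apply propext
    by_cases hi : a e = i
    · subst hi
      rw [((hdata e).2.1 s hs).2]
      simp
    · simp only [hi, false_and, iff_false]
      exact (h.far₀ e i (fun h' => hi h'.symm) _ (List.mem_singleton.2 rfl) _ (hmem e s hs)).2
  have hF1 : ∀ i e, ∀ s < (p e).length,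
      adjM F (f₁ i) ((p e).getD s z) = if b e = i ∧ s + 1 = (p e).length then 1 else 0 := by
    intro i e s hs
    unfold adjM
    congr 1
    apply propext
    by_cases hi : b e = i
    · subst hi
      rw [((hdata e).2.2.1 s hs).2]
      simp
    · simp only [hi, false_and, iff_false]
      exact (h.far₁ e i (fun h' => hi h'.symm) _ (List.mem_singleton.2 rfl) _ (hmem e s hs)).2
  have hS0 : ∀ i e (q : ℕ → ZMod 2), ∑ s ∈ range (p e).length,
      adjM F (f₀ i) ((p e).getD s z) * q s = if a e = i then q 0 else 0 := by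
    intro i e q
    rw [Finset.sum_eq_single 0]
    · rw [hF0 i e 0 (hpos e)]
      by_cases hi : a e = i <;> simp [hi]
    · intro s hs hne
      rw [hF0 i e s (mem_range.1 hs), if_neg (fun h' => hne h'.2), zero_mul]
    · intro h'
      exact absurd (mem_range.2 (hpos e)) h'
  have hS1 : ∀ i e (q : ℕ → ZMod 2), ∑ s ∈ range (p e).length,
      adjM F (f₁ i) ((p e).getD s z) * q s = if b e = i then q ((p e).length - 1) else 0 := by
    intro i e q
    have := hpos e
    rw [Finset.sum_eq_single ((p e).length - 1)]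
    · rw [hF1 i e _ (by omega)]
      by_cases hi : b e = i
      · rw [if_pos ⟨hi, by omega⟩, if_pos hi, one_mul]
      · rw [if_neg (fun h' => hi h'.1), if_neg hi, zero_mul]
    · intro s hs hne
      rw [hF1 i e s (mem_range.1 hs), if_neg (fun h' => hne (by omega)), zero_mul]
    · intro h'
      exact absurd (mem_range.2 (by omega)) h'
  have hPhi0 : ∀ i, ∑ e, ∑ s ∈ range (p e).length, adjM F (f₀ i) ((p e).getD s z) *
      ∑ j ∈ range (p e).length, n0 (p e).length s j = c * ∑ e, if a e = i then 1 else 0 := by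
    intro i
    rw [Finset.mul_sum]
    refine Finset.sum_congr rfl fun e _ => ?_
    rw [hS0 i e, hcol]
    split_ifs <;> simp
  have hPhi1 : ∀ i, ∑ e, ∑ s ∈ range (p e).length, adjM F (f₁ i) ((p e).getD s z) *
      ∑ j ∈ range (p e).length, n0 (p e).length s j = c * ∑ e, if b e = i then 1 else 0 := by
    intro i
    rw [Finset.mul_sum]
    refine Finset.sum_congr rfl fun e _ => ?_
    rw [hS1 i e, n0_sum', hcol]
    split_ifs <;> simp
  have hcross : ∀ (x y : V) (qy : ε → ℕ → ZMod 2), ∑ e, ∑ s ∈ range (p e).length,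
      ∑ t ∈ range (p e).length, adjM F x ((p e).getD s z) * n0 (p e).length s t *
        adjM F ((p e).getD t z) y = ∑ e, ∑ s ∈ range (p e).length,
          adjM F x ((p e).getD s z) * ∑ t ∈ range (p e).length,
            adjM F y ((p e).getD t z) * n0 (p e).length s t := by
    intro x y _
    refine Finset.sum_congr rfl fun e _ => Finset.sum_congr rfl fun s _ => ?_
    rw [Finset.mul_sum]
    refine Finset.sum_congr rfl fun t _ => ?_
    rw [adjM_comm F _ y]
    ring
  refine nearclique_blocks (η := Option ε) F G H W hGF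
    (fun o => o.elim kn fun e => (p e).length)
    (fun o i => o.elim z fun e => (p e).getD i z) ?_ ?_ ?_ ?_ ?_ (Sum.elim f₀ f₁) ?_ ?_ ?_ ?_
  · rintro (_ | e)
    · show kn % 3 ≠ 2
      omega
    · show (p e).length % 3 ≠ 2
      rw [h.len e]
      omega
  · rintro (_ | e) i hi
    · exact hzW
    · exact (hp e _ (hmem e i hi)).1
  · rintro (_ | e) i hi j hj
    · change i < kn at hi
      change j < kn at hj
      have : i = 0 := by omega
      subst this
      have : j = 0 := by omega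
      subst this
      simp
    · exact (hdata e).1 i hi j hj
  · rintro (_ | e) (_ | e') hne i hi j hj
    · exact absurd rfl hne
    · exact (hp e' _ (hmem e' j hj)).2
    · have := (hp e _ (hmem e i hi)).2
      exact ⟨fun h' => this.1 h'.symm, fun h' => this.2 h'.symm⟩
    · exact h.anti e e' (fun h' => hne (by rw [h'])) _ (hmem e i hi) _ (hmem e' j hj)
  · rw [Fintype.sum_option]
    show ∑ i ∈ range kn, ∑ j ∈ range kn, n0 kn i j + ∑ e, ∑ i ∈ range (p e).length,
      ∑ j ∈ range (p e).length, n0 (p e).length i j = 0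
    rw [← hτ]
    by_cases h0 : τ = 0
    · rw [hkn, if_pos h0, h0]
      simp
    · have h1 : τ = 1 := by
        revert h0
        generalize τ = t
        revert t
        decide
      rw [hkn, if_neg h0, h1]
      decide
  · refine Function.Injective.sumElim h.inj₀ h.inj₁ h.ne
  · rintro (i | i)
    · exact (h₀ i).1
    · exact (h₁ i).1
  · rintro (i | i) (_ | e) s hs
    · exact (h₀ i).2.1.symm
    · show f₀ i ≠ (p e).getD s z
      by_cases hi : i = a e
      · subst hi
        exact ((hdata e).2.1 s hs).1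
      · exact (h.far₀ e i hi _ (List.mem_singleton.2 rfl) _ (hmem e s hs)).1
    · exact (h₁ i).2.1.symm
    · show f₁ i ≠ (p e).getD s z
      by_cases hi : i = b e
      · subst hi
        exact ((hdata e).2.2.1 s hs).1
      · exact (h.far₁ e i hi _ (List.mem_singleton.2 rfl) _ (hmem e s hs)).1
  · intro x y hxy
    have hz : ∀ w : ι₀ ⊕ ι₁, adjM F (Sum.elim f₀ f₁ w) z = 0 := by
      rintro (i | i)
      · exact adjM_eq_zero.2 fun h' => (h₀ i).2.2 h'.symm
      · exact adjM_eq_zero.2 fun h' => (h₁ i).2.2 h'.symm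
    rw [Fintype.sum_option, Fintype.sum_option, Fintype.sum_option]
    simp only [Option.elim_none, Option.elim_some, hz, zero_mul, Finset.sum_const_zero, zero_add]
    rw [hcross _ _ (fun _ _ => 0)]
    rcases x with i | i <;> rcases y with j | j
    · simp only [Sum.elim_inl]
      have hz0 : ∑ e, ∑ s ∈ range (p e).length, adjM F (f₀ i) ((p e).getD s z) *
          ∑ t ∈ range (p e).length, adjM F (f₀ j) ((p e).getD t z) * n0 (p e).length s t = 0 := by
        apply Finset.sum_eq_zero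
        intro e _
        rw [hS0 i e, hS0 j e]
        split_ifs with h1 h2
        · exact absurd (h1.symm.trans h2) (fun h' => hxy (by rw [h']))
        · rfl
        · rfl
      rw [hPhi0, hPhi0, hH0 i j (fun h' => hxy (by rw [h'])), adjM_eq_zero.2 (h.indep₀ i j),
        hz0, add_zero, add_zero]
    · simp only [Sum.elim_inl, Sum.elim_inr]
      rw [hPhi0, hPhi1, hH01 i j, adjM_eq_zero.2 (h.indep i j), add_zero]
      congr 1
      refine Finset.sum_congr rfl fun e _ => ?_
      rw [hS0 i e, hS1 j e, n0_corner]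
      by_cases h1 : a e = i <;> by_cases h2 : b e = j <;> simp [h1, h2]
    · simp only [Sum.elim_inl, Sum.elim_inr]
      rw [hPhi1, hPhi0, adjM_comm H, hH01 j i,
        adjM_eq_zero.2 (fun h' => h.indep j i h'.symm), add_zero, mul_comm]
      congr 1
      refine Finset.sum_congr rfl fun e _ => ?_
      rw [hS1 i e, hS0 j e, n0_comm, n0_corner]
      by_cases h1 : a e = j <;> by_cases h2 : b e = i <;> simp [h1, h2]
    · simp only [Sum.elim_inr]
      have hz0 : ∑ e, ∑ s ∈ range (p e).length, adjM F (f₁ i) ((p e).getD s z) *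
          ∑ t ∈ range (p e).length, adjM F (f₁ j) ((p e).getD t z) * n0 (p e).length s t = 0 := by
        apply Finset.sum_eq_zero
        intro e _
        rw [hS1 i e, hS1 j e]
        split_ifs with h1 h2
        · exact absurd (h1.symm.trans h2) (fun h' => hxy (by rw [h']))
        · rfl
        · rfl
      rw [hPhi1, hPhi1, hH1 i j (fun h' => hxy (by rw [h'])), adjM_eq_zero.2 (h.indep₁ i j),
        hz0, add_zero, add_zero]

theorem adjM_bip {ι₀ ι₁ ε : Type} [Fintype ε] (a : ε → ι₀) (b : ε → ι₁)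
    (hab : ∀ e e', a e = a e' → b e = b e' → e = e') (i : ι₀) (j : ι₁) :
    adjM (bip a b) (Sum.inl i) (Sum.inr j) = ∑ e, if a e = i ∧ b e = j then 1 else 0 := by
  by_cases h : ∃ e, a e = i ∧ b e = j
  · rw [adjM_eq_one.2 ((bip_adj_inl_inr a b i j).2 h)]
    obtain ⟨e, h1, h2⟩ := h
    rw [Finset.sum_eq_single e]
    · rw [if_pos ⟨h1, h2⟩]
    · intro e' _ hne
      rw [if_neg]
      rintro ⟨h3, h4⟩
      exact hne (hab e' e (h3.trans h1.symm) (h4.trans h2.symm))
    · intro h'
      exact absurd (mem_univ _) h'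
  · rw [adjM_eq_zero.2 (fun h' => h ((bip_adj_inl_inr a b i j).1 h')), Finset.sum_eq_zero]
    intro e _
    rw [if_neg]
    intro h'
    exact h ⟨e, h'⟩

/-- near-clique, residue 1: `G` is the complement of `F` on `W`, `z` is a spare vertex -/
theorem pivotMinor_of_subD_three_one {ι₀ ι₁ ε : Type} [Fintype ι₀] [Fintype ι₁] [Fintype ε]
    (F G : SimpleGraph V) (a : ε → ι₀) (b : ε → ι₁)
    (hab : ∀ e e', a e = a e' → b e = b e' → e = e')
    (hodd₀ : ∀ i, (univ.filter fun e => a e = i).card % 2 = 1)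
    (hodd₁ : ∀ i, (univ.filter fun e => b e = i).card % 2 = 1) (f₀ : ι₀ → V) (f₁ : ι₁ → V)
    (p : ε → List V) (W : Finset V) (z : V) (hGF : ∀ x ∈ W, ∀ y ∈ W, x ≠ y →
      (G.Adj x y ↔ ¬ F.Adj x y)) (hzW : z ∈ W) (h₀ : ∀ i, f₀ i ∈ W ∧ z ≠ f₀ i ∧ ¬ F.Adj z (f₀ i))
    (h₁ : ∀ i, f₁ i ∈ W ∧ z ≠ f₁ i ∧ ¬ F.Adj z (f₁ i))
    (hp : ∀ e, ∀ v ∈ p e, v ∈ W ∧ z ≠ v ∧ ¬ F.Adj z v)
    (h : SubD F a b 3 1 f₀ f₁ p) : HasPivotMinor G (bip a b) := by
  have hone : ∀ n : ℕ, n % 2 = 1 → (n : ZMod 2) = 1 := by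
    intro n hn
    have h1 : (n : ZMod 2) = ((n % 2 : ℕ) : ZMod 2) := (ZMod.natCast_mod n 2).symm
    rw [h1, hn, Nat.cast_one]
  have e0 : ∀ i, (∑ e, if a e = i then (1 : ZMod 2) else 0) = 1 := by
    intro i
    rw [Finset.sum_boole]
    exact hone _ (hodd₀ i)
  have e1 : ∀ i, (∑ e, if b e = i then (1 : ZMod 2) else 0) = 1 := by
    intro i
    rw [Finset.sum_boole]
    exact hone _ (hodd₁ i)
  have h2 : (1 + 1 * 1 : ZMod 2) * (1 + 1 * 1) = 0 := by decide
  refine hasPivotMinor_three F G a b 1 (Or.inr rfl) 1 (by simp) (bip a b) ?_ ?_ ?_ f₀ f₁ p W z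
    hGF hzW h₀ h₁ hp h
  · intro i j _
    rw [e0, e0, h2]
    exact adjM_eq_zero.2 (not_bip_adj_inl_inl a b i j)
  · intro i j _
    rw [e1, e1, h2]
    exact adjM_eq_zero.2 (not_bip_adj_inr_inr a b i j)
  · intro i j
    rw [e0, e1, h2, zero_add]
    exact adjM_bip a b hab i j

/-- near-clique, residue 0 -/
theorem pivotMinor_of_subD_three_zero {ι₀ ι₁ ε : Type} [Fintype ι₀] [Fintype ι₁] [Fintype ε]
    (F G : SimpleGraph V) (a : ε → ι₀) (b : ε → ι₁)
    (hab : ∀ e e', a e = a e' → b e = b e' → e = e') (f₀ : ι₀ → V) (f₁ : ι₁ → V)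
    (p : ε → List V) (W : Finset V) (z : V) (hGF : ∀ x ∈ W, ∀ y ∈ W, x ≠ y →
      (G.Adj x y ↔ ¬ F.Adj x y)) (hzW : z ∈ W) (h₀ : ∀ i, f₀ i ∈ W ∧ z ≠ f₀ i ∧ ¬ F.Adj z (f₀ i))
    (h₁ : ∀ i, f₁ i ∈ W ∧ z ≠ f₁ i ∧ ¬ F.Adj z (f₁ i))
    (hp : ∀ e, ∀ v ∈ p e, v ∈ W ∧ z ≠ v ∧ ¬ F.Adj z v)
    (h : SubD F a b 3 0 f₀ f₁ p) : HasPivotMinor G (bip a b)ᶜ := by
  have hcompl : ∀ (H : SimpleGraph (ι₀ ⊕ ι₁)) (x y : ι₀ ⊕ ι₁), x ≠ y →
      adjM Hᶜ x y = 1 + adjM H x y := by
    intro H x y hxy
    by_cases h1 : H.Adj x y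
    · rw [adjM_eq_one.2 h1, adjM_eq_zero.2]
      · decide
      · rw [SimpleGraph.compl_adj]
        tauto
    · rw [adjM_eq_zero.2 h1, adjM_eq_one.2]
      · decide
      · rw [SimpleGraph.compl_adj]
        tauto
  refine hasPivotMinor_three F G a b 0 (Or.inl rfl) 0 (by simp) (bip a b)ᶜ ?_ ?_ ?_ f₀ f₁ p W z
    hGF hzW h₀ h₁ hp h
  · intro i j hij
    rw [hcompl _ _ _ (fun h' => hij (Sum.inl_injective h')), adjM_eq_zero.2 (not_bip_adj_inl_inl a b i j)]
    ring
  · intro i j hij
    rw [hcompl _ _ _ (fun h' => hij (Sum.inr_injective h')), adjM_eq_zero.2 (not_bip_adj_inr_inr a b i j)]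
    ring
  · intro i j
    rw [hcompl _ _ _ (by simp), adjM_bip a b hab i j]
    ring

end Pool.Agent.Helper32.PD
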